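import Pool.Agent.Helper40.ZU.Stmts3

/-!
Row SGA of the sheet ZU (MP_7a8f48_an): countably many ergodic measures.
-/

open MeasureTheory

namespace Pool.Agent.Helper94.ZU

open Pool.Agent.Helper40.ZU

/-- **SGA**. -/
theorem st_SGA (hECT : ST_ECT) (hMMX : ST_MMX) : ST_SGA := by
  intro X _ _ T hT hcount hGe m hm hmp
  obtain ⟨A, hA1, hA2, hA3, hA4, hA5⟩ := hECT X T hT hcount m hm hmp
  exact hMMX X m T A hmp hA1 hA2 hA3 hA4 fun i hi =>
    hGe _ (ProbabilityTheory.cond_isProbabilityMeasure hi) (hA5 i hi)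

end Pool.Agent.Helper94.ZU
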