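import Pool.Agent.Helper40.ZU.Stmts2
import Pool.Agent.Helper34.ZB.ZOC

/-!
Rows VLM and VCT of the sheet ZU (MP_7a8f48_an): the theorem on one orbit, countably many ergodic
measures.
-/

open MeasureTheory Filter Topology Finset
open scoped ComplexConjugate

namespace Pool.Agent.Helper94.ZU

open Pool.Agent.Helper40.ZU
open Pool.Agent.Helper34.ZB (ms_smul)
open Pool.Agent.Helper16.MD (MS)

/-- the filter of a subsequence -/
theorem lt_map {X : Type} [TopologicalSpace X] [MeasurableSpace X] {T : X → X} {x : X}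
    {m : Measure X} {j : ℕ → ℕ} (hj : StrictMono j) (hm : IsProbabilityMeasure m)
    (hT : Measurable T) (hc : ∀ᵐ z ∂m, ContinuousAt T z)
    (h : ∀ G : C(X, ℝ), Tendsto (fun k : ℕ => (∑ n ∈ Icc 1 (j k), G (T^[n] x)) / (j k : ℝ)) atTop
      (𝓝 (∫ z, G z ∂m))) : Lt (map j atTop) T x m where
  ne := inferInstance
  le := hj.tendsto_atTop
  prob := hm
  meas := hT
  cts := hc
  lim := fun G => tendsto_map'_iff.2 (h G)

/-- **VLM**. -/
theorem st_VLM (hVSU : ST_VSU) (hVGE : ST_VGE) : ST_VLM := by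
  intro X _ _ _ _ T x F hT hF hB hlim
  obtain ⟨B, hB⟩ := hB
  obtain ⟨C, hC⟩ : ∃ C : ℝ, C = max B 1 := ⟨_, rfl⟩
  have hC0 : 0 < C := by rw [hC]; exact lt_of_lt_of_le one_pos (le_max_right _ _)
  have hFC : ∀ z, ‖F z‖ ≤ C := fun z => (hB z).trans (by rw [hC]; exact le_max_left _ _)
  have nC : ‖((C⁻¹ : ℝ) : ℂ)‖ = C⁻¹ := by
    rw [Complex.norm_real, Real.norm_of_nonneg (by positivity)]
  have hC1 : ((C : ℝ) : ℂ) * ((C⁻¹ : ℝ) : ℂ) = 1 := by
    rw [← Complex.ofReal_mul, mul_inv_cancel₀ hC0.ne', Complex.ofReal_one]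
  have key : Tendsto (fun N : ℕ => MS (fun n => ((C⁻¹ : ℝ) : ℂ) * F (T^[n] x)) N / (N : ℂ)) atTop
      (𝓝 0) := by
    refine hVSU X T x _ (fun n => ?_) fun j m hj hm h => ?_
    · rw [norm_mul, nC, inv_mul_le_iff₀ hC0, mul_one]
      exact hFC _
    · obtain ⟨h1, h2, h3⟩ := hlim j m hj hm h
      have h4 := hVGE X (map j atTop) T x m (lt_map hj hm hT h1 h) h3 F hF ⟨B, hB⟩ h2
      have h5 := (tendsto_map'_iff.1 h4).const_mul ((C⁻¹ : ℝ) : ℂ)
      rw [mul_zero] at h5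
      refine h5.congr fun k => ?_
      show ((C⁻¹ : ℝ) : ℂ) * (MS (fun n => F (T^[n] x)) (j k) / (j k : ℂ)) = _
      rw [ms_smul, mul_div_assoc]
  have h6 := key.const_mul ((C : ℝ) : ℂ)
  rw [mul_zero] at h6
  refine h6.congr fun N => ?_
  rw [ms_smul, mul_div_assoc, ← mul_assoc, hC1, one_mul]

/-- **VCT**. -/
theorem st_VCT (hVLM : ST_VLM) (hECT : ST_ECT) (hMMX : ST_MMX) (hVAV : ST_VAV) : ST_VCT := by
  intro X _ _ _ _ T hT hcount hGe F x
  obtain ⟨B, hB⟩ := isCompact_univ.exists_bound_of_continuousOn F.continuous.continuousOn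
  refine hVLM X T x F hT.measurable F.continuous.measurable ⟨B, fun z => hB z (Set.mem_univ z)⟩
    fun j m hj hm h => ⟨Eventually.of_forall fun z => hT.continuousAt,
      Eventually.of_forall fun z => F.continuous.continuousAt, ?_⟩
  have hmp : MeasurePreserving T m m :=
    (hVAV X (map j atTop) T x m (lt_map hj hm hT.measurable
      (Eventually.of_forall fun z => hT.continuousAt) h)).1
  obtain ⟨A, hA1, hA2, hA3, hA4, hA5⟩ := hECT X T hT.measurable hcount m hm hmp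
  refine hMMX X m T A hmp hA1 hA2 hA3 hA4 fun i hi => ?_
  exact hGe _ (ProbabilityTheory.cond_isProbabilityMeasure hi) (hA5 i hi)

end Pool.Agent.Helper94.ZU
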