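import Pool.Agent.Helper40.ZU.Stmts
import Pool.Agent.Helper94.ZB.ZOE

/-!
Row VOE of the sheet ZU (MP_7a8f48_an): eigenfunctions, along a filter.
-/

open MeasureTheory Filter Topology Finset
open scoped ComplexConjugate

namespace Pool.Agent.Helper94.ZU

open Pool.Agent.Helper98.TW (BF)
open Pool.Agent.Helper40.ZU
open Pool.Agent.Helper94.ZB (no_root)
open Pool.Agent.Helper16.MD (MS)

/-- the truncation at the height `b` -/
noncomputable def trc {X : Type} (v : X → ℂ) (b : ℕ) : X → ℂ :=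
  fun y => if ‖v y‖ ≤ b then v y else 0

theorem trc_meas {X : Type} [MeasurableSpace X] {v : X → ℂ} (hv : Measurable v) (b : ℕ) :
    Measurable (trc v b) :=
  Measurable.ite (measurableSet_le hv.norm measurable_const) hv measurable_const

theorem trc_le {X : Type} (v : X → ℂ) (b : ℕ) (y : X) : ‖trc v b y‖ ≤ b := by
  unfold trc
  split_ifs with h
  · exact h
  · simp

theorem trc_sub {X : Type} (v : X → ℂ) (b : ℕ) (y : X) : ‖v y - trc v b y‖ ^ 2 ≤ ‖v y‖ ^ 2 := by
  unfold trc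
  split_ifs with h
  · rw [sub_self, norm_zero, zero_pow two_ne_zero]
    exact sq_nonneg _
  · rw [sub_zero]

/-- the correlations of bounded eigenfunctions vanish -/
theorem corr_zero {X : Type} [MeasurableSpace X] {m : Measure X} {T : X → X} (hT : Measurable T)
    {w : X → ℂ} (hwm : Measurable w) {l : ℂ} (hl : ‖l‖ = 1) (hroot : ∀ n : ℕ, 1 ≤ n → l ^ n ≠ 1)
    (hwit : ∀ n : ℕ, ∀ᵐ y ∂m, w (T^[n] y) = l ^ n * w y) {p q : ℕ} (hpq : p ≠ q)
    {κ : Measure (X × X)} (hκm : MeasurePreserving (Prod.map T^[p] T^[q]) κ κ)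
    (ac1 : κ.map Prod.fst ≪ m) (ac2 : κ.map Prod.snd ≪ m) :
    ∫ z, w z.1 * conj (w z.2) ∂κ = 0 := by
  have e1 : ∀ᵐ z ∂κ, w (T^[p] z.1) = l ^ p * w z.1 :=
    ae_of_ae_map measurable_fst.aemeasurable (ac1.ae_le (hwit p))
  have e2 : ∀ᵐ z ∂κ, w (T^[q] z.2) = l ^ q * w z.2 :=
    ae_of_ae_map measurable_snd.aemeasurable (ac2.ae_le (hwit q))
  obtain ⟨I, hI⟩ : ∃ I, I = ∫ z, w z.1 * conj (w z.2) ∂κ := ⟨_, rfl⟩
  have hwm2 : Measurable (fun z : X × X => w z.1 * conj (w z.2)) :=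
    (hwm.comp measurable_fst).mul
      (Complex.continuous_conj.measurable.comp (hwm.comp measurable_snd))
  have h3 : I = l ^ p * conj (l ^ q) * I := by
    have h4 : ∫ z, w z.1 * conj (w z.2) ∂κ =
        ∫ z, w (T^[p] z.1) * conj (w (T^[q] z.2)) ∂κ := by
      have h5 : ∫ z, w z.1 * conj (w z.2) ∂(κ.map (Prod.map T^[p] T^[q])) =
          ∫ z, w (T^[p] z.1) * conj (w (T^[q] z.2)) ∂κ := by
        rw [integral_map hκm.measurable.aemeasurable hwm2.aestronglyMeasurable]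
        rfl
      rw [hκm.map_eq] at h5
      exact h5
    rw [hI, ← integral_const_mul]
    nth_rewrite 1 [h4]
    refine integral_congr_ae ?_
    filter_upwards [e1, e2] with z h5 h6
    rw [h5, h6, map_mul]
    ring
  have h4 : (1 - l ^ p * conj (l ^ q)) * I = 0 := by
    linear_combination h3
  rcases mul_eq_zero.1 h4 with h5 | h5
  · exact absurd (sub_eq_zero.1 h5).symm (no_root hl hroot hpq)
  · rw [← hI]
    exact h5

/-- **VOE**. -/
theorem st_VOE (hVAV : ST_VAV) (hVOP : ST_VOP) (hVOK : ST_VOK) (hVOC : ST_VOC) : ST_VOE := by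
  intro X _ _ _ _ L T x m hL v ⟨hv, l, hl, hev⟩
  have hprob := hL.prob
  have hmp : MeasurePreserving T m m := (hVAV X L T x m hL).1
  have hit : ∀ n : ℕ, ∀ᵐ y ∂m, v (T^[n] y) = l ^ n * v y := by
    intro n
    induction n with
    | zero => exact Eventually.of_forall fun y => by simp
    | succ n ih =>
      filter_upwards [ih, (hmp.iterate n).quasiMeasurePreserving.ae hev] with y h1 h2
      rw [Function.iterate_succ_apply', h2, h1, pow_succ]
      ring
  by_cases hroot : ∃ n : ℕ, 1 ≤ n ∧ l ^ n = 1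
  · obtain ⟨n, hn, hln⟩ := hroot
    refine hVOP X L T x m hL n v hn hv ?_
    filter_upwards [hit n] with y hy
    rw [hy, hln, one_mul]
  · push Not at hroot
    obtain ⟨c1, _, _, c4, _, _⟩ := hVOC X L T x m hL
    -- the measurable version
    obtain ⟨v₀, hv₀m, hvv₀⟩ : ∃ v₀ : X → ℂ, Measurable v₀ ∧ v =ᵐ[m] v₀ :=
      ⟨hv.1.mk v, hv.1.stronglyMeasurable_mk.measurable, hv.1.ae_eq_mk⟩
    have hv₀ : MemLp v₀ 2 m := hv.ae_eq hvv₀
    have hit₀ : ∀ n : ℕ, ∀ᵐ y ∂m, v₀ (T^[n] y) = l ^ n * v₀ y := by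
      intro n
      filter_upwards [hit n, hvv₀, (hmp.iterate n).quasiMeasurePreserving.ae hvv₀] with y h1 h2 h3
      rw [← h3, ← h2, h1]
    have htr : ∀ b n : ℕ, ∀ᵐ y ∂m, trc v₀ b (T^[n] y) = l ^ n * trc v₀ b y := by
      intro b n
      filter_upwards [hit₀ n] with y h1
      have h2 : ‖v₀ (T^[n] y)‖ = ‖v₀ y‖ := by
        rw [h1, norm_mul, norm_pow, hl, one_pow, one_mul]
      unfold trc
      rw [h2, h1]
      split_ifs <;> simp
    have hOr : ∀ b : ℕ, Or L T x m (trc v₀ b) := by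
      intro b η hη
      refine hVOK X L T x m hL (trc v₀ b) η ⟨trc_meas hv₀m b, b, trc_le v₀ b⟩ hη
        ⟨0, fun p q _ _ hpq _ _ κ _ hκi ac1 ac2 => ?_⟩
      rw [corr_zero hmp.measurable (trc_meas hv₀m b) hl hroot (htr b) hpq hκi ac1 ac2, norm_zero]
      positivity
    refine c1 v₀ v hvv₀.symm (c4 v₀ hv₀ fun ε hε => ?_)
    have hlim : Tendsto (fun b : ℕ => ∫ y, ‖v₀ y - trc v₀ b y‖ ^ 2 ∂m) atTop (𝓝 (∫ _ : X, (0 : ℝ) ∂m)) := by
      refine tendsto_integral_of_dominated_convergence (fun y => ‖v₀ y‖ ^ 2) ?_ ?_ ?_ ?_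
      · intro b
        exact ((hv₀m.sub (trc_meas hv₀m b)).norm.pow_const 2).aestronglyMeasurable
      · exact hv₀.integrable_norm_pow (by norm_num)
      · intro b
        refine Eventually.of_forall fun y => ?_
        rw [norm_pow, norm_norm]
        exact trc_sub v₀ b y
      · refine Eventually.of_forall fun y => ?_
        refine tendsto_const_nhds.congr' ?_
        filter_upwards [eventually_ge_atTop ⌈‖v₀ y‖⌉₊] with b hb
        have h1 : ‖v₀ y‖ ≤ b := (Nat.le_ceil _).trans (by exact_mod_cast hb)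
        unfold trc
        rw [if_pos h1, sub_self, norm_zero]
        norm_num
    rw [integral_zero] at hlim
    obtain ⟨b, hb⟩ := (hlim.eventually (eventually_lt_nhds hε)).exists
    exact ⟨trc v₀ b, MemLp.of_bound (trc_meas hv₀m b).aestronglyMeasurable b
      (Eventually.of_forall (trc_le v₀ b)), hOr b, hb.le⟩

end Pool.Agent.Helper94.ZU
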