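import Pool.Agent.Helper40.ZU.Stmts
import Pool.Agent.Helper34.ZB.ZOK

/-!
Row VOK of the sheet ZU (MP_7a8f48_an): functions with small correlations, along a filter.
-/

set_option linter.unusedSectionVars false

open MeasureTheory Filter Topology Finset
open scoped ComplexConjugate

namespace Pool.Agent.Helper94.ZU

open Pool.Agent.Helper98.TW (BF)
open Pool.Agent.Helper98.ZA (int_le_of_le)
open Pool.Agent.Helper40.ZU
open Pool.Agent.Helper34.ZB (l2_tri l1_of_l2 ms_norm_le ms_add ms_smul memLp_cont corr_close_b)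
open Pool.Agent.Helper16.MD (MS)

variable {X : Type} [MetricSpace X] [CompactSpace X] [MeasurableSpace X] [BorelSpace X]
  {L : Filter ℕ} {T : X → X} {x : X} {m : Measure X}

/-- averages of the absolute values -/
theorem orbF (hL : Lt L T x m) (H : C(X, ℂ)) {t : ℝ} (ht : ∫ y, ‖H y‖ ∂m < t) :
    ∀ᶠ N : ℕ in L, ‖MS (fun n => H (T^[n] x)) N‖ ≤ t * N := by
  have h := hL.lim ⟨fun y => ‖H y‖, H.continuous.norm⟩
  have h1 : ∀ᶠ N : ℕ in L, (∑ n ∈ Icc 1 N, ‖H (T^[n] x)‖) / (N : ℝ) < t :=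
    h.eventually (eventually_lt_nhds ht)
  filter_upwards [h1, hL.le (eventually_gt_atTop 0)] with N hN hN0
  have hN1 : (0 : ℝ) < N := by exact_mod_cast hN0
  rw [div_lt_iff₀ hN1] at hN
  exact (ms_norm_le _ N).trans hN.le

/-- comparison of two continuous functions -/
theorem compF (hL : Lt L T x m) (H H' : C(X, ℂ)) {t η₁ η : ℝ} (ht : 0 ≤ t)
    (h2 : ∫ y, ‖H y - H' y‖ ^ 2 ∂m ≤ t ^ 2)
    (h' : ∀ᶠ N : ℕ in L, ‖MS (fun n => H' (T^[n] x)) N‖ ≤ η₁ * N) (hη : η₁ + t < η) :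
    ∀ᶠ N : ℕ in L, ‖MS (fun n => H (T^[n] x)) N‖ ≤ η * N := by
  have hp := hL.prob
  have h3 : ∫ y, ‖(H - H') y‖ ∂m ≤ t := by
    refine l1_of_l2 (memLp_cont (H - H')) ht ?_
    simpa only [ContinuousMap.sub_apply] using h2
  have h4 : ∫ y, ‖(H - H') y‖ ∂m < η - η₁ := by linarith
  filter_upwards [h', orbF hL (H - H') h4] with N hN1 hN2
  have h5 : MS (fun n => H (T^[n] x)) N =
      MS (fun n => H' (T^[n] x)) N + MS (fun n => (H - H') (T^[n] x)) N := by
    rw [← ms_add]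
    congr 1
    funext n
    simp
  rw [h5]
  refine (norm_add_le _ _).trans ?_
  linarith

/-- **VOK**. -/
theorem st_VOK (hVKT : ST_VKT) (hVCO : ST_VCO) : ST_VOK := by
  intro X _ _ _ _ L T x m hL G η hG hη ⟨P₀, hcor⟩
  obtain ⟨hGm, b, hGb⟩ := hG
  have hprob := hL.prob
  obtain ⟨B, hB⟩ : ∃ B : ℝ, B = max b (max 1 η) := ⟨_, rfl⟩
  have hBb : b ≤ B := by rw [hB]; exact le_max_left _ _
  have hB1 : 1 ≤ B := by rw [hB]; exact (le_max_left _ _).trans (le_max_right _ _)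
  have hBη : η ≤ B := by rw [hB]; exact (le_max_right _ _).trans (le_max_right _ _)
  have hB0 : 0 < B := by linarith
  have hGB : ∀ y, ‖G y‖ ≤ B := fun y => (hGb y).trans hBb
  obtain ⟨η', hη'⟩ : ∃ η' : ℝ, η' = η / (2 * B) := ⟨_, rfl⟩
  have hη'0 : 0 < η' := by rw [hη']; positivity
  have hη'1 : η' ≤ 1 := by
    rw [hη', div_le_one (by positivity)]
    linarith
  obtain ⟨P₁, hP₁⟩ := hVKT η' hη'0 hη'1 P₀
  obtain ⟨t, ht⟩ : ∃ t : ℝ, t = η ^ 2 / (200000 * B) := ⟨_, rfl⟩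
  have ht0 : 0 < t := by rw [ht]; positivity
  have htB : 2 * B * t = η ^ 2 / 100000 := by
    rw [ht]
    field_simp
    norm_num
  obtain ⟨ε₂, hε₂⟩ : ∃ ε₂ : ℝ, ε₂ = min ((η / 8) ^ 2) (t ^ 2 / (P₁ + 1)) := ⟨_, rfl⟩
  have hε₂0 : 0 < ε₂ := by rw [hε₂]; exact lt_min (by positivity) (by positivity)
  have hε₂1 : ε₂ ≤ (η / 8) ^ 2 := by rw [hε₂]; exact min_le_left _ _
  have hε₂2 : ε₂ * (P₁ + 1) ≤ t ^ 2 := by
    have h1 : ε₂ ≤ t ^ 2 / (P₁ + 1) := by rw [hε₂]; exact min_le_right _ _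
    rwa [le_div_iff₀ (by positivity)] at h1
  obtain ⟨G', hG'1, hGG'⟩ := Pool.Agent.Helper73.ZA.st_ZAP X m G B ε₂ hGm hGB hε₂0
  have hG'm : Measurable (G' : X → ℂ) := G'.continuous.measurable
  have hdm : Measurable (fun x => G x - G' x) := hGm.sub hG'm
  have hdb : ∀ x, ‖G x - G' x‖ ≤ 2 * B := fun x => (norm_sub_le _ _).trans (by
    linarith [hGB x, hG'1 x])
  have hint : Integrable (fun x => ‖G x - G' x‖ ^ 2) m :=
    Integrable.of_bound (hdm.norm.pow_const 2).aestronglyMeasurable ((2 * B) ^ 2)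
      (Eventually.of_forall fun x => by
        rw [norm_pow, norm_norm]
        exact pow_le_pow_left₀ (norm_nonneg _) (hdb x) 2)
  -- the correlations
  have hco : ∀ p q : ℕ, p.Prime → q.Prime → p ≠ q → P₀ ≤ p → P₀ ≤ q → p ≤ P₁ →
      q ≤ P₁ → ∀ᶠ N : ℕ in L,
        ‖∑ n ∈ Icc 1 (N / max p q), G' (T^[p * n] x) * conj (G' (T^[q * n] x))‖ ≤
          (η ^ 2 / 16384) * (N / max p q : ℕ) := by
    intro p q hp hq hpq hp0 hq0 hpP hqP
    have h1 := hVCO X L T x m hL p q G' (η ^ 2 / 40000 + η ^ 2 / 100000)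
      (η ^ 2 / 100000) hp.one_lt.le hq.one_lt.le (by positivity) ?_
    · filter_upwards [h1] with M hM
      refine hM.trans (mul_le_mul_of_nonneg_right ?_ (Nat.cast_nonneg _))
      nlinarith [sq_nonneg η]
    intro κ hκ hκi a1 a2
    have hbd : ((max p q : ℕ) : ℝ) * ε₂ ≤ t ^ 2 := by
      refine le_trans ?_ hε₂2
      rw [mul_comm]
      refine mul_le_mul_of_nonneg_left ?_ hε₂0.le
      have h2 : ((max p q : ℕ) : ℝ) ≤ P₁ := by exact_mod_cast max_le hpP hqP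
      linarith
    have p1 : IsProbabilityMeasure (κ.map Prod.fst) :=
      Measure.isProbabilityMeasure_map measurable_fst.aemeasurable
    have p2 : IsProbabilityMeasure (κ.map Prod.snd) :=
      Measure.isProbabilityMeasure_map measurable_snd.aemeasurable
    have ac : ∀ ν' : Measure X, (∀ s, MeasurableSet s → ν' s ≤ (max p q : ℕ) * m s) → ν' ≪ m := by
      intro ν' h
      refine Measure.AbsolutelyContinuous.mk fun s hs h0 => ?_
      have h2 := h s hs
      rw [h0, mul_zero] at h2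
      exact nonpos_iff_eq_zero.1 h2
    have b1 : ∫ x, ‖G x - G' x‖ ^ 2 ∂(κ.map Prod.fst) ≤ t ^ 2 := by
      refine (int_le_of_le (fun x => by positivity) hint a1).trans ?_
      exact (mul_le_mul_of_nonneg_left hGG' (Nat.cast_nonneg _)).trans hbd
    have b2 : ∫ x, ‖G x - G' x‖ ^ 2 ∂(κ.map Prod.snd) ≤ t ^ 2 := by
      refine (int_le_of_le (fun x => by positivity) hint a2).trans ?_
      exact (mul_le_mul_of_nonneg_left hGG' (Nat.cast_nonneg _)).trans hbd
    have h2 := corr_close_b hGm hG'm hB0 hGB hG'1 ht0.le b1 b2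
    have h3 := hcor p q hp hq hpq hp0 hq0 κ hκ hκi (ac _ a1) (ac _ a2)
    rw [htB] at h2
    linarith
  have nB : ‖((B⁻¹ : ℝ) : ℂ)‖ = B⁻¹ := by
    rw [Complex.norm_real, Real.norm_of_nonneg (by positivity)]
  have hms : ∀ᶠ N : ℕ in L, ‖MS (fun n => G' (T^[n] x)) N‖ ≤ (η / 2) * N := by
    have h1 := hP₁ L (fun n => ((B⁻¹ : ℝ) : ℂ) * G' (T^[n] x)) hL.le (fun n => by
      rw [norm_mul, nB, inv_mul_le_iff₀ hB0, mul_one]
      exact hG'1 _) (by
      intro p q hp hq hpq hp0 hq0 hpP hqP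
      filter_upwards [hco p q hp hq hpq hp0 hq0 hpP hqP] with N hM
      have e : ∑ n ∈ Icc 1 (N / max p q), (((B⁻¹ : ℝ) : ℂ) * G' (T^[p * n] x)) *
          conj (((B⁻¹ : ℝ) : ℂ) * G' (T^[q * n] x)) = ((B⁻¹ : ℝ) : ℂ) ^ 2 *
          ∑ n ∈ Icc 1 (N / max p q), G' (T^[p * n] x) * conj (G' (T^[q * n] x)) := by
        rw [Finset.mul_sum]
        refine Finset.sum_congr rfl fun n _ => ?_
        rw [map_mul, Complex.conj_ofReal]
        ring
      rw [e, norm_mul, norm_pow, nB]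
      have h2 := mul_le_mul_of_nonneg_left hM (by positivity : (0 : ℝ) ≤ B⁻¹ ^ 2)
      refine h2.trans (le_of_eq ?_)
      rw [hη']
      field_simp
      ring)
    filter_upwards [h1] with N hN
    rw [ms_smul, norm_mul, nB, inv_mul_le_iff₀ hB0] at hN
    refine hN.trans (le_of_eq ?_)
    rw [hη']
    field_simp
  refine ⟨(η / 8) ^ 2, by positivity, fun H hH => ?_⟩
  have mG : MemLp G 2 m := MemLp.of_bound hGm.aestronglyMeasurable B
    (Eventually.of_forall hGB)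
  have e1 : ∫ y, ‖H y - G' y‖ ^ 2 ∂m ≤ (η / 8 + η / 8) ^ 2 :=
    l2_tri (memLp_cont H) mG (memLp_cont G') (by positivity) (by positivity) hH
      (hGG'.trans hε₂1)
  exact compF hL H G' (by positivity) e1 hms (by linarith)

end Pool.Agent.Helper94.ZU
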